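import Pool.Agent.L5helper66.TD.Defs2

/-!
# The tetrahedra with the edges `w + 1, w + 1, w, 6, w - 1, w - 1` have Dehn invariant zero
-/

set_option autoImplicit false

open scoped TensorProduct RealInnerProductSpace

open Pool.Agent.L5helper66.TD

namespace Pool.Agent.L5helper12.NF

lemma ang_add (x y : ℝ) : ang (x + y) = ang x + ang y := rfl

lemma ang_neg (x : ℝ) : ang (-x) = -ang x := rfl

lemma ang_eq_of_dir {θ θ' x y : ℝ} (h : Dir θ x y) (h' : Dir θ' x y) : ang θ = ang θ' := by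
  have h1 := h.mul h'.neg
  have h2 : Dir (θ + -θ') (x * x - y * -y) 0 := by
    convert h1 using 1
    ring
  have h3 := h2.ang_eq_zero
  rw [ang_add, ang_neg] at h3
  exact eq_of_sub_eq_zero (by rw [sub_eq_add_neg]; exact h3)

/-- The hypothesis: the contribution of one edge (`term_dist`). -/
def TermDist : Prop := ∀ (P Q R S : E3) (a b c d e f : ℝ), dist P Q = |a| → dist P R = |b| →
    dist P S = |c| → dist Q R = |d| → dist Q S = |e| → dist R S = |f| →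
    0 < cm a b c d e f →
    ∃ θ : ℝ, term P Q R S = a ⊗ₜ[ℤ] ang θ ∧
      Dir θ (2 * a ^ 2 * (b ^ 2 + c ^ 2 - f ^ 2) - (a ^ 2 + b ^ 2 - d ^ 2) * (a ^ 2 + c ^ 2 - e ^ 2))
        (a * √(2 * cm a b c d e f))

lemma sqrt_cm {w C : ℝ} (hw : 4 < w) (hC : C = 216 * w ^ 2 * (w ^ 2 - 16)) :
    √(2 * C) = 12 * √3 * w * √(w ^ 2 - 16) := by
  have hq : 0 ≤ w ^ 2 - 16 := by nlinarith
  have h3 : (0 : ℝ) ≤ 3 := by norm_num
  have e1 : 2 * C = (12 * √3 * w * √(w ^ 2 - 16)) ^ 2 := by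
    rw [hC, mul_pow, mul_pow, mul_pow, Real.sq_sqrt hq, Real.sq_sqrt h3]
    ring
  rw [e1, Real.sqrt_sq]
  have := Real.sqrt_nonneg (w ^ 2 - 16)
  have := Real.sqrt_nonneg (3 : ℝ)
  have : 0 < w := by linarith
  positivity

theorem L_dehn_of (H : TermDist) (w : ℝ) (hw : 4 < w) (T : Fin 4 → E3)
    (h : HasEdges T (w + 1) (w + 1) w 6 (w - 1) (w - 1)) : dehn T = 0 := by
  obtain ⟨h01, h02, h03, h12, h13, h23⟩ := h
  have w0 : 0 < w := by linarith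
  have a1 : |w + 1| = w + 1 := abs_of_pos (by linarith)
  have a2 : |w| = w := abs_of_pos w0
  have a3 : |w - 1| = w - 1 := abs_of_pos (by linarith)
  have a4 : |(6 : ℝ)| = 6 := abs_of_pos (by norm_num)
  set q := √(w ^ 2 - 16) with hq
  have hq1 : 0 < w ^ 2 - 16 := by nlinarith
  have hqp : 0 < q := Real.sqrt_pos.2 hq1
  have hqq : q ^ 2 = w ^ 2 - 16 := Real.sq_sqrt hq1.le
  set s := √3 with hs
  have hsp : 0 < s := Real.sqrt_pos.2 (by norm_num)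
  have hss : s ^ 2 = 3 := Real.sq_sqrt (by norm_num)
  have hpos : 0 < 216 * w ^ 2 * (w ^ 2 - 16) := by positivity
  -- the six edges
  have c1 : cm (w + 1) (w + 1) w 6 (w - 1) (w - 1) = 216 * w ^ 2 * (w ^ 2 - 16) := by
    unfold cm; ring
  have c3 : cm w (w + 1) (w + 1) (w - 1) (w - 1) 6 = 216 * w ^ 2 * (w ^ 2 - 16) := by
    unfold cm; ring
  have c4 : cm 6 (w + 1) (w - 1) (w + 1) (w - 1) w = 216 * w ^ 2 * (w ^ 2 - 16) := by
    unfold cm; ring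
  have c5 : cm (w - 1) (w + 1) 6 w (w - 1) (w + 1) = 216 * w ^ 2 * (w ^ 2 - 16) := by
    unfold cm; ring
  obtain ⟨t1, e1, d1⟩ := H (T 0) (T 1) (T 2) (T 3) (w + 1) (w + 1) w 6 (w - 1) (w - 1)
    (by rw [a1, h01]) (by rw [a1, h02]) (by rw [a2, h03]) (by rw [a4, h12]) (by rw [a3, h13])
    (by rw [a3, h23]) (by rw [c1]; exact hpos)
  obtain ⟨t2, e2, d2⟩ := H (T 0) (T 2) (T 1) (T 3) (w + 1) (w + 1) w 6 (w - 1) (w - 1)
    (by rw [a1, h02]) (by rw [a1, h01]) (by rw [a2, h03]) (by rw [a4, dist_comm, h12])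
    (by rw [a3, h23]) (by rw [a3, h13]) (by rw [c1]; exact hpos)
  obtain ⟨t3, e3, d3⟩ := H (T 0) (T 3) (T 1) (T 2) w (w + 1) (w + 1) (w - 1) (w - 1) 6
    (by rw [a2, h03]) (by rw [a1, h01]) (by rw [a1, h02]) (by rw [a3, dist_comm, h13])
    (by rw [a3, dist_comm, h23]) (by rw [a4, h12]) (by rw [c3]; exact hpos)
  obtain ⟨t4, e4, d4⟩ := H (T 1) (T 2) (T 0) (T 3) 6 (w + 1) (w - 1) (w + 1) (w - 1) w
    (by rw [a4, h12]) (by rw [a1, dist_comm, h01]) (by rw [a3, h13]) (by rw [a1, dist_comm, h02])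
    (by rw [a3, h23]) (by rw [a2, h03]) (by rw [c4]; exact hpos)
  obtain ⟨t5, e5, d5⟩ := H (T 1) (T 3) (T 0) (T 2) (w - 1) (w + 1) 6 w (w - 1) (w + 1)
    (by rw [a3, h13]) (by rw [a1, dist_comm, h01]) (by rw [a4, h12]) (by rw [a2, dist_comm, h03])
    (by rw [a3, dist_comm, h23]) (by rw [a1, h02]) (by rw [c5]; exact hpos)
  obtain ⟨t6, e6, d6⟩ := H (T 2) (T 3) (T 0) (T 1) (w - 1) (w + 1) 6 w (w - 1) (w + 1)
    (by rw [a3, h23]) (by rw [a1, dist_comm, h02]) (by rw [a4, dist_comm, h12])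
    (by rw [a2, dist_comm, h03])
    (by rw [a3, dist_comm, h13]) (by rw [a1, h01]) (by rw [c5]; exact hpos)
  -- directions
  have k12 : 12 * s * w ≠ 0 := by positivity
  have D1 : Dir t1 (s * (w + 4)) ((w + 1) * q) := by
    refine d1.scale k12 ?_ ?_
    · calc 12 * s * w * (s * (w + 4)) = 12 * s ^ 2 * w * (w + 4) := by ring
        _ = _ := by rw [hss]; ring
    · rw [sqrt_cm hw c1]
      ring
  have hang2 : ang t2 = ang t1 := ang_eq_of_dir d2 d1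
  have hang6 : ang t6 = ang t5 := ang_eq_of_dir d6 d5
  have D3 : Dir t3 (s * (w ^ 2 - 28)) (12 * q) := by
    refine d3.scale (c := s * w ^ 2) (by positivity) ?_ ?_
    · calc s * w ^ 2 * (s * (w ^ 2 - 28)) = s ^ 2 * w ^ 2 * (w ^ 2 - 28) := by ring
        _ = _ := by rw [hss]; ring
    · rw [sqrt_cm hw c3]
      ring
  have D4 : Dir t4 q (s * w) := by
    refine d4.scale (c := 72 * q) (by positivity) ?_ ?_
    · calc 72 * q * q = 72 * q ^ 2 := by ring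
        _ = _ := by rw [hqq]; ring
    · rw [sqrt_cm hw c4]
      ring
  have D5 : Dir t5 (s * (w - 4)) ((w - 1) * q) := by
    refine d5.scale k12 ?_ ?_
    · calc 12 * s * w * (s * (w - 4)) = 12 * s ^ 2 * w * (w - 4) := by ring
        _ = _ := by rw [hss]; ring
    · rw [sqrt_cm hw c5]
      ring
  -- the first relation
  have hw4 : (w ^ 2 - 4) * q ≠ 0 := by
    have : 0 < w ^ 2 - 4 := by nlinarith
    positivity
  have R1 : Dir (t1 + t5) (-q) (2 * s) := by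
    refine (D1.mul D5).scale hw4 ?_ ?_
    · linear_combination (-(w ^ 2 - 16)) * hss + (w ^ 2 - 1 - (w ^ 2 - 4)) * hqq
    · ring
  have R2 : Dir (t1 + t5 + (t1 + t5) + t3) (s * ((w ^ 2 - 28) ^ 2 + 48 * q ^ 2)) 0 := by
    refine ((R1.mul R1).mul D3).scale one_ne_zero ?_ ?_
    · have : (-q * -q - 2 * s * (2 * s)) = w ^ 2 - 28 := by
        linear_combination hqq - 4 * hss
      rw [this]
      ring
    · have : (-q * -q - 2 * s * (2 * s)) = w ^ 2 - 28 := by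
        linear_combination hqq - 4 * hss
      rw [this]
      linear_combination (4 * q * (w ^ 2 - 28)) * hss
  have A := R2.ang_eq_zero
  -- the second relation
  have R3 : Dir (t1 + -t5) ((w ^ 2 + 2) * q) (-(6 * s * w)) := by
    refine (D1.mul D5.neg).scale hqp.ne' ?_ ?_
    · linear_combination (-(w ^ 2 - 16)) * hss + 3 * hqq
    · ring
  have R4 : Dir (t4 + t4 + t4) ((w ^ 2 + 2) * q) (6 * s * w) := by
    refine ((D4.mul D4).mul D4).scale (c := -8) (by norm_num) ?_ ?_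
    · linear_combination (-q) * hqq + (3 * q * w ^ 2) * hss
    · linear_combination (-(3 * s * w)) * hqq + (s * w ^ 3) * hss
  have R5 : Dir (t1 + -t5 + (t4 + t4 + t4)) (((w ^ 2 + 2) * q) ^ 2 + (6 * s * w) ^ 2) 0 := by
    refine (R3.mul R4).scale one_ne_zero ?_ ?_
    · ring
    · ring
  have B := R5.ang_eq_zero
  simp only [ang_add, ang_neg] at A B
  -- the sum
  have key : ∀ (x : ℝ) (n : ℕ) (g : Ang), ((n : ℝ) * x) ⊗ₜ[ℤ] g = x ⊗ₜ[ℤ] (n • g) := by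
    intro x n g
    rw [TensorProduct.tmul_smul, TensorProduct.smul_tmul', nsmul_eq_mul]
  unfold dehn
  rw [e1, e2, e3, e4, e5, e6, hang2, hang6]
  have E1 : (w + 1) ⊗ₜ[ℤ] ang t1 = w ⊗ₜ[ℤ] ang t1 + (1 : ℝ) ⊗ₜ[ℤ] ang t1 :=
    TensorProduct.add_tmul _ _ _
  have E5 : (w - 1) ⊗ₜ[ℤ] ang t5 = w ⊗ₜ[ℤ] ang t5 - (1 : ℝ) ⊗ₜ[ℤ] ang t5 :=
    TensorProduct.sub_tmul _ _ _
  have E4 : (6 : ℝ) ⊗ₜ[ℤ] ang t4 = (1 : ℝ) ⊗ₜ[ℤ] ((6 : ℕ) • ang t4) := by
    rw [← key 1 6 (ang t4)]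
    norm_num
  rw [E1, E5, E4]
  have F1 : w ⊗ₜ[ℤ] (ang t1 + ang t5 + (ang t1 + ang t5) + ang t3) = 0 := by
    rw [A, TensorProduct.tmul_zero]
  have F2 : (1 : ℝ) ⊗ₜ[ℤ] (ang t1 + -ang t5 + (ang t4 + ang t4 + ang t4)) = 0 := by
    rw [B, TensorProduct.tmul_zero]
  have G6 : (6 : ℕ) • ang t4 = ang t4 + ang t4 + ang t4 + (ang t4 + ang t4 + ang t4) := by
    abel
  rw [G6]
  simp only [TensorProduct.tmul_add, TensorProduct.tmul_neg] at F1 F2 ⊢
  have : (0 : ℝ ⊗[ℤ] Ang) = 0 + (0 + 0) := by simp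
  rw [this]
  nth_rw 1 [← F1]
  nth_rw 1 [← F2]
  nth_rw 1 [← F2]
  abel

end Pool.Agent.L5helper12.NF
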